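import Mathlib

set_option autoImplicit false

namespace Pool.Agent.Helper89.NM

open Finset

/-- `p v j t = ∑_{k ≤ j} v k (-t)^(j-k)/(j-k)!`. -/
noncomputable def p (v : ℕ → ℝ) (j : ℕ) (t : ℝ) : ℝ :=
  ∑ k ∈ range (j + 1), v k * ((-t) ^ (j - k) / ((j - k).factorial : ℝ))

lemma p_zero (v : ℕ → ℝ) (t : ℝ) : p v 0 t = v 0 := by
  simp [p]

lemma p_at_zero (v : ℕ → ℝ) (j : ℕ) : p v j 0 = v j := by
  unfold p
  rw [sum_range_succ]
  have : ∑ k ∈ range j, v k * ((-(0:ℝ)) ^ (j - k) / ((j - k).factorial : ℝ)) = 0 := by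
    apply sum_eq_zero
    intro k hk
    have hk' : j - k ≠ 0 := by have := mem_range.1 hk; omega
    simp [hk']
  rw [this]; simp

lemma p_hasDerivAt (v : ℕ → ℝ) (j : ℕ) (t : ℝ) : HasDerivAt (p v (j + 1)) (-(p v j t)) t := by
  have h1 : ∀ k ∈ range (j + 1), HasDerivAt
      (fun t : ℝ => v k * ((-t) ^ (j + 1 - k) / ((j + 1 - k).factorial : ℝ)))
      (-(v k * ((-t) ^ (j - k) / ((j - k).factorial : ℝ)))) t := by
    intro k hk
    have hk' : k ≤ j := by have := mem_range.1 hk; omega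
    obtain ⟨d, rfl⟩ := Nat.exists_eq_add_of_le hk'
    have e1 : k + d + 1 - k = d + 1 := by omega
    have e2 : k + d - k = d := by omega
    rw [e1, e2]
    have h2 : HasDerivAt (fun t : ℝ => (-t) ^ (d + 1)) (((d + 1 : ℕ) : ℝ) * (-t) ^ d * (-1)) t := by
      have := (hasDerivAt_neg t).fun_pow (d + 1)
      simpa using this
    have h3 := (h2.div_const (((d + 1).factorial : ℝ))).const_mul (v k)
    refine h3.congr_deriv ?_
    have hf : ((d + 1).factorial : ℝ) = ((d + 1 : ℕ) : ℝ) * (d.factorial : ℝ) := by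
      rw [Nat.factorial_succ]; push_cast; ring
    rw [hf]
    have hd : ((d + 1 : ℕ) : ℝ) ≠ 0 := by positivity
    have hd2 : (d.factorial : ℝ) ≠ 0 := by positivity
    field_simp
  have h4 := HasDerivAt.fun_sum h1
  have h5 : HasDerivAt (fun t : ℝ => ∑ k ∈ range (j + 1),
      v k * ((-t) ^ (j + 1 - k) / ((j + 1 - k).factorial : ℝ)) + v (j + 1)) (-(p v j t)) t := by
    refine (h4.add_const (v (j + 1))).congr_deriv ?_
    simp [p]
  have h6 : p v (j + 1) = fun t : ℝ => ∑ k ∈ range (j + 1),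
      v k * ((-t) ^ (j + 1 - k) / ((j + 1 - k).factorial : ℝ)) + v (j + 1) := by
    funext t
    unfold p
    rw [sum_range_succ]
    simp
  rw [h6]
  exact h5

/-- A function of constant strict sign on the open unit interval. -/
def Sgn (f : ℝ → ℝ) : Prop := (∀ t ∈ Set.Ioo (0:ℝ) 1, 0 < f t) ∨ (∀ t ∈ Set.Ioo (0:ℝ) 1, f t < 0)

lemma mono_of_sgn (v : ℕ → ℝ) (j : ℕ) (h : Sgn (p v j)) :
    StrictMonoOn (p v (j + 1)) (Set.Icc 0 1) ∨ StrictAntiOn (p v (j + 1)) (Set.Icc 0 1) := by
  have hc : ContinuousOn (p v (j + 1)) (Set.Icc 0 1) := fun t _ =>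
    (p_hasDerivAt v j t).continuousAt.continuousWithinAt
  rcases h with h | h
  · right
    apply strictAntiOn_of_deriv_neg (convex_Icc 0 1) hc
    intro t ht
    rw [interior_Icc] at ht
    rw [(p_hasDerivAt v j t).deriv]
    linarith [h t ht]
  · left
    apply strictMonoOn_of_deriv_pos (convex_Icc 0 1) hc
    intro t ht
    rw [interior_Icc] at ht
    rw [(p_hasDerivAt v j t).deriv]
    linarith [h t ht]

lemma sgn_all (v : ℕ → ℝ) (n : ℕ) (h0 : v 0 ≠ 0)
    (h : ∀ j, 0 < j → j < n → v j = 0 ∨ p v j 1 = 0) :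
    ∀ j, j < n → Sgn (p v j) := by
  intro j
  induction j with
  | zero =>
    intro _
    rcases lt_or_gt_of_ne h0 with h1 | h1
    · right; intro t _; rw [p_zero]; exact h1
    · left; intro t _; rw [p_zero]; exact h1
  | succ j ih =>
    intro hj
    have hs := ih (by omega)
    have hm := mono_of_sgn v j hs
    have m0 : (0:ℝ) ∈ Set.Icc (0:ℝ) 1 := by constructor <;> norm_num
    have m1 : (1:ℝ) ∈ Set.Icc (0:ℝ) 1 := by constructor <;> norm_num
    rcases h (j + 1) (by omega) hj with h2 | h2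
    · have h3 : p v (j + 1) 0 = 0 := by rw [p_at_zero]; exact h2
      rcases hm with hm | hm
      · left; intro t ht
        have := hm m0 (Set.Ioo_subset_Icc_self ht) ht.1
        linarith
      · right; intro t ht
        have := hm m0 (Set.Ioo_subset_Icc_self ht) ht.1
        linarith
    · rcases hm with hm | hm
      · right; intro t ht
        have := hm (Set.Ioo_subset_Icc_self ht) m1 ht.2
        linarith
      · left; intro t ht
        have := hm (Set.Ioo_subset_Icc_self ht) m1 ht.2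
        linarith

/-- The Rolle argument. -/
theorem rolle (v : ℕ → ℝ) (n : ℕ) (hn : 0 < n) (h0 : v 0 ≠ 0) (hvn : v n = 0)
    (hpn : p v n 1 = 0) (h : ∀ j, 0 < j → j < n → v j = 0 ∨ p v j 1 = 0) : False := by
  obtain ⟨m, rfl⟩ : ∃ m, n = m + 1 := ⟨n - 1, by omega⟩
  have hs := sgn_all v (m + 1) h0 h m (by omega)
  have m0 : (0:ℝ) ∈ Set.Icc (0:ℝ) 1 := by constructor <;> norm_num
  have m1 : (1:ℝ) ∈ Set.Icc (0:ℝ) 1 := by constructor <;> norm_num
  have e0 : p v (m + 1) 0 = 0 := by rw [p_at_zero]; exact hvn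
  rcases mono_of_sgn v m hs with hm | hm
  · have := hm m0 m1 (by norm_num); linarith
  · have := hm m0 m1 (by norm_num); linarith

end Pool.Agent.Helper89.NM
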