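import Mathlib
import Pool.Agent.Helper89.NM.Rolle

set_option autoImplicit false

namespace Pool.Agent.Helper89.NM

open Finset Matrix

variable {m : ℕ}

/-- The grading derivation on matrices. -/
def D (M : Matrix (Fin m) (Fin m) ℚ) : Matrix (Fin m) (Fin m) ℚ :=
  fun i j => ((j : ℕ) - (i : ℕ) : ℚ) * M i j

lemma D_apply (M : Matrix (Fin m) (Fin m) ℚ) (i j : Fin m) :
    D M i j = ((j : ℕ) - (i : ℕ) : ℚ) * M i j := rfl

lemma D_add (M K : Matrix (Fin m) (Fin m) ℚ) : D (M + K) = D M + D K := by
  ext i j; simp [D_apply]; ring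

lemma D_sub (M K : Matrix (Fin m) (Fin m) ℚ) : D (M - K) = D M - D K := by
  ext i j; simp [D_apply]; ring

lemma D_mul (M K : Matrix (Fin m) (Fin m) ℚ) : D (M * K) = D M * K + M * D K := by
  ext i j
  simp only [D_apply, Matrix.mul_apply, Matrix.add_apply, Finset.mul_sum]
  rw [← Finset.sum_add_distrib]
  apply Finset.sum_congr rfl
  intro k _
  ring

/-- Strictly upper triangular. -/
def SU (M : Matrix (Fin m) (Fin m) ℚ) : Prop := ∀ i j : Fin m, j ≤ i → M i j = 0

/-- Upper unitriangular. -/
def UU (M : Matrix (Fin m) (Fin m) ℚ) : Prop :=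
  (∀ i j : Fin m, j < i → M i j = 0) ∧ ∀ i : Fin m, M i i = 1

/-- Solution of `D g = X g`, by recursion on the gap. -/
noncomputable def sol (X : Matrix (Fin m) (Fin m) ℚ) : ℕ → Fin m → Fin m → ℚ
  | 0 => fun i j => if i = j then 1 else 0
  | (t + 1) => fun i j =>
      if i = j then 1
      else if i < j then (∑ k : Fin m, X i k * sol X t k j) / ((j : ℕ) - (i : ℕ) : ℚ) else 0

lemma sol_diag (X : Matrix (Fin m) (Fin m) ℚ) (t : ℕ) (i : Fin m) : sol X t i i = 1 := by
  cases t <;> simp [sol]

lemma sol_low (X : Matrix (Fin m) (Fin m) ℚ) (t : ℕ) (i j : Fin m) (h : j < i) :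
    sol X t i j = 0 := by
  cases t with
  | zero => simp [sol, (ne_of_gt h)]
  | succ t => simp [sol, (ne_of_gt h), not_lt.2 h.le]

lemma sol_stable (X : Matrix (Fin m) (Fin m) ℚ) (hX : SU X) :
    ∀ (t : ℕ) (i j : Fin m), (j : ℕ) - (i : ℕ) ≤ t → sol X (t + 1) i j = sol X t i j := by
  intro t
  induction t with
  | zero =>
    intro i j h
    rcases lt_trichotomy i j with h1 | h1 | h1
    · exfalso
      have : (i : ℕ) < j := h1
      omega
    · subst h1; rw [sol_diag, sol_diag]
    · rw [sol_low X _ i j h1, sol_low X _ i j h1]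
  | succ t ih =>
    intro i j h
    rcases lt_trichotomy i j with h1 | h1 | h1
    · have e : ∀ s, sol X (s + 1) i j = (∑ k : Fin m, X i k * sol X s k j) / ((j : ℕ) - (i : ℕ) : ℚ) := by
        intro s; simp [sol, (ne_of_lt h1), h1]
      rw [e (t + 1), e t]
      congr 1
      apply Finset.sum_congr rfl
      intro k _
      by_cases hk : k ≤ i
      · rw [hX i k hk]; simp
      · rw [ih k j]
        have : (i : ℕ) < k := not_le.1 hk
        omega
    · subst h1; rw [sol_diag, sol_diag]
    · rw [sol_low X _ i j h1, sol_low X _ i j h1]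

/-- The solution matrix. -/
noncomputable def G (X : Matrix (Fin m) (Fin m) ℚ) : Matrix (Fin m) (Fin m) ℚ := sol X m

lemma G_UU (X : Matrix (Fin m) (Fin m) ℚ) : UU (G X) :=
  ⟨fun i j h => sol_low X m i j h, fun i => sol_diag X m i⟩

lemma G_eq (X : Matrix (Fin m) (Fin m) ℚ) (hX : SU X) : D (G X) = X * G X := by
  ext i j
  rw [D_apply, Matrix.mul_apply]
  unfold G
  rcases lt_trichotomy i j with h1 | h1 | h1
  · have hb : (j : ℕ) - (i : ℕ) ≤ m := by have := j.2; omega
    rw [← sol_stable X hX m i j hb]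
    have e : sol X (m + 1) i j = (∑ k : Fin m, X i k * sol X m k j) / ((j : ℕ) - (i : ℕ) : ℚ) := by
      simp [sol, (ne_of_lt h1), h1]
    rw [e]
    have hne : ((j : ℕ) - (i : ℕ) : ℚ) ≠ 0 := by
      have : ((i : ℕ) : ℚ) < ((j : ℕ) : ℚ) := by exact_mod_cast h1
      linarith
    field_simp
  · subst h1
    simp only [sub_self, zero_mul]
    symm
    apply Finset.sum_eq_zero
    intro k _
    by_cases hk : k ≤ i
    · rw [hX i k hk]; simp
    · rw [sol_low X m k i (not_le.1 hk)]; simp
  · rw [sol_low X m i j h1]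
    simp only [mul_zero]
    symm
    apply Finset.sum_eq_zero
    intro k _
    by_cases hk : k ≤ i
    · rw [hX i k hk]; simp
    · rw [sol_low X m k j (lt_trans h1 (not_le.1 hk))]; simp

/-- Support property of solutions of `D g = Z g`. -/
lemma supp (Z g : Matrix (Fin m) (Fin m) ℚ) (hZ : SU Z) (hg : UU g) (he : D g = Z * g)
    (R : Fin m → Fin m → Prop)
    (hR : ∀ i k j : Fin m, i < k → k < j → R i k → R k j → R i j)
    (hZR : ∀ i j : Fin m, i < j → Z i j ≠ 0 → R i j) :
    ∀ t : ℕ, ∀ i j : Fin m, (j : ℕ) - (i : ℕ) ≤ t → i < j → g i j ≠ 0 → R i j := by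
  intro t
  induction t with
  | zero =>
    intro i j h1 h2 _
    have : (i : ℕ) < j := h2
    omega
  | succ t ih =>
    intro i j h1 h2 h3
    have h4 : D g i j ≠ 0 := by
      rw [D_apply]
      apply mul_ne_zero _ h3
      have : ((i : ℕ) : ℚ) < ((j : ℕ) : ℚ) := by exact_mod_cast h2
      linarith
    rw [he, Matrix.mul_apply] at h4
    obtain ⟨k, _, hk⟩ := Finset.exists_ne_zero_of_sum_ne_zero h4
    have hk1 : Z i k ≠ 0 := left_ne_zero_of_mul hk
    have hk2 : g k j ≠ 0 := right_ne_zero_of_mul hk
    have hik : i < k := by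
      by_contra hh
      exact hk1 (hZ i k (not_lt.1 hh))
    have hkj : k ≤ j := by
      by_contra hh
      exact hk2 (hg.1 k j (not_le.1 hh))
    rcases eq_or_lt_of_le hkj with h5 | h5
    · subst h5; exact hZR i k hik hk1
    · refine hR i k j hik h5 (hZR i k hik hk1) (ih k j ?_ h5 hk2)
      have : (i : ℕ) < k := hik
      omega

/-- The shift matrix. -/
def N (m : ℕ) : Matrix (Fin m) (Fin m) ℚ := fun i j => if (j : ℕ) = i + 1 then 1 else 0

/-- `exp(-N)`. -/
noncomputable def E (m : ℕ) : Matrix (Fin m) (Fin m) ℚ := fun i j =>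
  if i ≤ j then (-1) ^ ((j : ℕ) - i) / (((j : ℕ) - i).factorial : ℚ) else 0

lemma N_SU (m : ℕ) : SU (N m) := by
  intro i j h
  have : (j : ℕ) ≤ i := h
  unfold N
  rw [if_neg (by omega)]

lemma D_N (m : ℕ) : D (N m) = N m := by
  ext i j
  rw [D_apply]
  unfold N
  by_cases h : (j : ℕ) = i + 1
  · rw [if_pos h, h]; push_cast; ring
  · rw [if_neg h]; ring

lemma E_UU (m : ℕ) : UU (E m) := by
  constructor
  · intro i j h; unfold E; rw [if_neg (not_le.2 h)]
  · intro i; unfold E; simp

lemma N_mul (m : ℕ) (M : Matrix (Fin m) (Fin m) ℚ) (i j : Fin m) :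
    (N m * M) i j = if h : (i : ℕ) + 1 < m then M ⟨i + 1, h⟩ j else 0 := by
  rw [Matrix.mul_apply]
  by_cases h : (i : ℕ) + 1 < m
  · rw [dif_pos h, Finset.sum_eq_single (⟨i + 1, h⟩ : Fin m)]
    · simp [N]
    · intro k _ hk
      have : (k : ℕ) ≠ i + 1 := by
        intro hh; apply hk; ext; exact hh
      simp [N, this]
    · intro hh; exact absurd (Finset.mem_univ _) hh
  · rw [dif_neg h]
    apply Finset.sum_eq_zero
    intro k _
    have : (k : ℕ) ≠ i + 1 := by have := k.2; omega
    simp [N, this]

lemma D_E (m : ℕ) : D (E m) = - (N m * E m) := by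
  ext i j
  rw [D_apply, Matrix.neg_apply, N_mul]
  rcases lt_trichotomy i j with h1 | h1 | h1
  · have h1' : (i : ℕ) < j := h1
    have h2 : (i : ℕ) + 1 < m := by have := j.2; omega
    rw [dif_pos h2]
    unfold E
    have h3 : (⟨i + 1, h2⟩ : Fin m) ≤ j := by
      show (i : ℕ) + 1 ≤ j
      omega
    rw [if_pos h1.le, if_pos h3]
    obtain ⟨d, hd⟩ : ∃ d, (j : ℕ) = i + 1 + d := ⟨j - (i + 1), by omega⟩
    have e1 : (j : ℕ) - (i : ℕ) = d + 1 := by omega
    have e2 : (j : ℕ) - ((⟨i + 1, h2⟩ : Fin m) : ℕ) = d := by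
      show (j : ℕ) - ((i : ℕ) + 1) = d
      omega
    rw [e2, e1]
    have e3 : ((j : ℕ) : ℚ) - (i : ℕ) = (d : ℚ) + 1 := by rw [hd]; push_cast; ring
    rw [e3, Nat.factorial_succ]
    push_cast
    have hd1 : (d : ℚ) + 1 ≠ 0 := by positivity
    have hd2 : (d.factorial : ℚ) ≠ 0 := by positivity
    field_simp
    ring
  · subst h1
    simp only [sub_self, zero_mul]
    by_cases h : (i : ℕ) + 1 < m
    · rw [dif_pos h, (E_UU m).1 _ _ (by show (i : ℕ) < i + 1; omega)]; simp
    · rw [dif_neg h]; simp
  · rw [(E_UU m).1 i j h1]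
    have h1' : (j : ℕ) < i := h1
    by_cases h : (i : ℕ) + 1 < m
    · rw [dif_pos h, (E_UU m).1 _ _ (by show (j : ℕ) < i + 1; omega)]; simp
    · rw [dif_neg h]; simp

/-- A matrix `W` with `D W = W + X W` vanishing on and below the first superdiagonal is zero. -/
lemma W_zero (X W : Matrix (Fin m) (Fin m) ℚ) (hX : SU X) (h : D W = W + X * W)
    (h0 : ∀ i j : Fin m, (j : ℕ) ≤ i + 1 → W i j = 0) : W = 0 := by
  have key : ∀ t : ℕ, ∀ i j : Fin m, (j : ℕ) - (i : ℕ) ≤ t → W i j = 0 := by
    intro t
    induction t with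
    | zero =>
      intro i j h1
      exact h0 i j (by omega)
    | succ t ih =>
      intro i j h1
      by_cases h2 : (j : ℕ) ≤ i + 1
      · exact h0 i j h2
      · have h3 : D W i j = W i j + (X * W) i j := by rw [h]; rfl
        rw [D_apply, Matrix.mul_apply] at h3
        have h4 : ∑ k : Fin m, X i k * W k j = 0 := by
          apply Finset.sum_eq_zero
          intro k _
          by_cases hk : k ≤ i
          · rw [hX i k hk]; simp
          · rw [ih k j]
            · simp
            · have : (i : ℕ) < k := not_le.1 hk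
              omega
        rw [h4] at h3
        have h5 : (((j : ℕ) : ℚ) - (i : ℕ) - 1) * W i j = 0 := by linarith
        rcases mul_eq_zero.1 h5 with h6 | h6
        · exfalso
          have : ((i : ℕ) : ℚ) + 1 < ((j : ℕ) : ℚ) := by
            have : (i : ℕ) + 1 < j := by omega
            exact_mod_cast this
          linarith
        · exact h6
  ext i j
  exact key _ i j le_rfl

/-- Lemma A: if `A = X + Y` satisfies `(D-1) A = X Y - Y X` then `h = g exp(-N)` solves `D h = -Y h`. -/
theorem lemmaA (X Y : Matrix (Fin m) (Fin m) ℚ) (hX : SU X) (hY : SU Y)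
    (h1 : ∀ i j : Fin m, (j : ℕ) = i + 1 → X i j + Y i j = 1)
    (hrel : D (X + Y) - (X + Y) = X * Y - Y * X) :
    D (G X * E m) = - Y * (G X * E m) := by
  set g := G X with hg
  have hgU : UU g := G_UU X
  have hgE : D g = X * g := G_eq X hX
  set A := X + Y with hA
  have hAS : SU A := fun i j h => by rw [hA, Matrix.add_apply, hX i j h, hY i j h]; simp
  have hDA : D A = A + (X * A - A * X) := by
    have : X * A - A * X = X * Y - Y * X := by
      rw [hA]; noncomm_ring
    rw [this, ← hrel]; abel
  have hW : A * g - g * N m = 0 := by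
    apply W_zero X _ hX
    · rw [D_sub, D_mul, D_mul, D_N, hgE, hDA]
      noncomm_ring
    · intro i j hij
      rw [Matrix.sub_apply, Matrix.mul_apply, Matrix.mul_apply]
      by_cases h2 : (j : ℕ) ≤ i
      · rw [Finset.sum_eq_zero, Finset.sum_eq_zero]
        · simp
        · intro k _
          by_cases hk : k < i
          · rw [hgU.1 i k hk]; simp
          · have : (i : ℕ) ≤ k := not_lt.1 hk
            rw [N_SU m k j (by show (j : ℕ) ≤ k; omega)]; simp
        · intro k _
          by_cases hk : k ≤ i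
          · rw [hAS i k hk]; simp
          · have : (i : ℕ) < k := not_le.1 hk
            rw [hgU.1 k j (by show (j : ℕ) < k; omega)]; simp
      · have hj : (j : ℕ) = i + 1 := by omega
        rw [Finset.sum_eq_single j, Finset.sum_eq_single i]
        · rw [hgU.2, hgU.2, hA, Matrix.add_apply, h1 i j hj]
          simp [N, hj]
        · intro k _ hk
          by_cases hk2 : k < i
          · rw [hgU.1 i k hk2]; simp
          · have h3 : (i : ℕ) ≤ k := not_lt.1 hk2
            have h4 : (k : ℕ) ≠ i := fun hh => hk (Fin.ext hh)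
            rw [N_SU m k j (by show (j : ℕ) ≤ k; omega)]; simp
        · intro hh; exact absurd (Finset.mem_univ _) hh
        · intro k _ hk
          by_cases hk2 : k ≤ i
          · rw [hAS i k hk2]; simp
          · have h3 : (i : ℕ) < k := not_le.1 hk2
            have h4 : (k : ℕ) ≠ j := fun hh => hk (Fin.ext hh)
            rw [hgU.1 k j (by show (j : ℕ) < k; omega)]; simp
        · intro hh; exact absurd (Finset.mem_univ _) hh
  have hgN : g * N m = A * g := by
    have := sub_eq_zero.1 hW
    exact this.symm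
  rw [D_mul, hgE, D_E]
  have : g * -(N m * E m) = -(A * g * E m) := by
    rw [Matrix.mul_neg, ← Matrix.mul_assoc, hgN]
  rw [this, hA]
  noncomm_ring

lemma UU_mul (M K : Matrix (Fin m) (Fin m) ℚ) (hM : UU M) (hK : UU K) : UU (M * K) := by
  constructor
  · intro i j h
    rw [Matrix.mul_apply]
    apply Finset.sum_eq_zero
    intro k _
    by_cases hk : k < i
    · rw [hM.1 i k hk]; simp
    · rw [hK.1 k j (lt_of_lt_of_le h (not_lt.1 hk))]; simp
  · intro i
    rw [Matrix.mul_apply, Finset.sum_eq_single i]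
    · rw [hM.2, hK.2]; simp
    · intro k _ hk
      rcases lt_or_gt_of_ne hk with h | h
      · rw [hM.1 i k h]; simp
      · rw [hK.1 k i h]; simp
    · intro hh; exact absurd (Finset.mem_univ _) hh

/-- The abstract contradiction: no system of numbers `X, Y` with the quadratic relation can have
supports in two multiplicative families `R, B` of blocks such that the block `(0,n)` is in neither
and each proper suffix block is in one of the two. -/
theorem no_system (n : ℕ) (hn : 0 < n) (R B : ℕ → ℕ → Prop)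
    (hRc : ∀ i k j, i < k → k < j → j ≤ n → R i k → R k j → R i j)
    (hBc : ∀ i k j, i < k → k < j → j ≤ n → B i k → B k j → B i j)
    (hsuf : ∀ k, 0 < k → k < n → R k n ∨ B k n)
    (hR0 : ¬ R 0 n) (hB0 : ¬ B 0 n)
    (X Y : ℕ → ℕ → ℚ)
    (hX : ∀ i j, i < j → j ≤ n → X i j ≠ 0 → R i j)
    (hY : ∀ i j, i < j → j ≤ n → Y i j ≠ 0 → B i j)
    (h1 : ∀ i, i + 1 ≤ n → X i (i + 1) + Y i (i + 1) = 1)
    (hrel : ∀ i j, i < j → j ≤ n →
      ((j : ℚ) - i - 1) * (X i j + Y i j) =
        ∑ k ∈ Finset.Ioo i j, (X i k * Y k j - Y i k * X k j)) :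
    False := by
  -- matrices
  set MX : Matrix (Fin (n + 1)) (Fin (n + 1)) ℚ := fun i j => if i < j then X i j else 0 with hMX
  set MY : Matrix (Fin (n + 1)) (Fin (n + 1)) ℚ := fun i j => if i < j then Y i j else 0 with hMY
  have hXS : SU MX := fun i j h => by rw [hMX]; simp [not_lt.2 h]
  have hYS : SU MY := fun i j h => by rw [hMY]; simp [not_lt.2 h]
  have h1' : ∀ i j : Fin (n + 1), (j : ℕ) = i + 1 → MX i j + MY i j = 1 := by
    intro i j hij
    have hlt : i < j := by show (i : ℕ) < j; omega
    simp only [hMX, hMY, if_pos hlt]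
    rw [hij]
    apply h1
    have := j.2
    omega
  have hrel' : D (MX + MY) - (MX + MY) = MX * MY - MY * MX := by
    ext i j
    rw [Matrix.sub_apply, Matrix.sub_apply, D_apply, Matrix.mul_apply, Matrix.mul_apply,
      ← Finset.sum_sub_distrib, Matrix.add_apply]
    by_cases hij : i < j
    · have e := hrel i j hij (by have := j.2; omega)
      simp only [hMX, hMY, if_pos hij]
      have e2 : ∑ k : Fin (n + 1), ((if i < k then X i k else 0) * (if k < j then Y k j else 0)
          - (if i < k then Y i k else 0) * (if k < j then X k j else 0)) =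
          ∑ k ∈ Finset.Ioo (i : ℕ) j, (X i k * Y k j - Y i k * X k j) := by
        have e3 : ∀ k : Fin (n + 1), ((if i < k then X i k else 0) * (if k < j then Y k j else 0)
          - (if i < k then Y i k else 0) * (if k < j then X k j else 0)) =
          (fun k : ℕ => if (i : ℕ) < k ∧ k < (j : ℕ) then (X i k * Y k j - Y i k * X k j) else 0) (k : ℕ) := by
          intro k
          by_cases h2 : i < k
          · by_cases h3 : k < j
            · have : (i : ℕ) < k ∧ (k : ℕ) < j := ⟨h2, h3⟩
              simp [h2, h3]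
            · have : ¬ ((i : ℕ) < k ∧ (k : ℕ) < j) := fun hh => h3 hh.2
              simp [h2, h3]
          · have : ¬ ((i : ℕ) < k ∧ (k : ℕ) < j) := fun hh => h2 hh.1
            simp [h2]
        rw [Finset.sum_congr rfl (fun k _ => e3 k)]
        rw [Fin.sum_univ_eq_sum_range (fun k : ℕ => if (i : ℕ) < k ∧ k < (j : ℕ) then (X i k * Y k j - Y i k * X k j) else 0) (n + 1)]
        rw [← Finset.sum_filter]
        apply Finset.sum_congr
        · ext k
          simp only [Finset.mem_filter, Finset.mem_range, Finset.mem_Ioo]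
          have := j.2
          constructor
          · intro h; exact h.2
          · intro h; exact ⟨by omega, h⟩
        · intro k _; rfl
      rw [e2, ← e]
      ring
    · have hji : j ≤ i := not_lt.1 hij
      have e4 : ∑ k : Fin (n + 1), (MX i k * MY k j - MY i k * MX k j) = 0 := by
        apply Finset.sum_eq_zero
        intro k _
        by_cases h2 : i < k
        · have h3 : j ≤ k := le_of_lt (lt_of_le_of_lt hji h2)
          rw [hXS k j h3, hYS k j h3]; simp
        · rw [hXS i k (not_lt.1 h2), hYS i k (not_lt.1 h2)]; simp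
      rw [e4, hXS i j hji, hYS i j hji]
      simp
  have hh := lemmaA MX MY hXS hYS h1' hrel'
  set g := G MX with hg
  set h := g * E (n + 1) with hhdef
  have hgU : UU g := G_UU MX
  have hhU : UU h := UU_mul _ _ hgU (E_UU (n + 1))
  have hgE : D g = MX * g := G_eq MX hXS
  -- supports
  have sR : ∀ i j : Fin (n + 1), i < j → g i j ≠ 0 → R i j := by
    intro i j hij hne
    refine supp MX g hXS hgU hgE (fun i j => R i j) ?_ ?_ _ i j le_rfl hij hne
    · intro i k j hik hkj
      exact hRc i k j hik hkj (by have := j.2; omega)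
    · intro i j hij hne
      apply hX i j hij (by have := j.2; omega)
      simpa [hMX, hij] using hne
  have hnegS : SU (-MY) := fun i j h => by rw [Matrix.neg_apply, hYS i j h]; simp
  have sB : ∀ i j : Fin (n + 1), i < j → h i j ≠ 0 → B i j := by
    intro i j hij hne
    refine supp (-MY) h hnegS hhU hh (fun i j => B i j) ?_ ?_ _ i j le_rfl hij hne
    · intro i k j hik hkj
      exact hBc i k j hik hkj (by have := j.2; omega)
    · intro i j hij hne
      apply hY i j hij (by have := j.2; omega)
      intro h0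
      apply hne
      rw [Matrix.neg_apply]
      simp only [hMY, if_pos hij, h0, neg_zero]
  -- the row vector
  set v : ℕ → ℝ := fun k => if hk : k < n + 1 then ((g 0 ⟨k, hk⟩ : ℚ) : ℝ) else 0 with hv
  have hvk : ∀ k (hk : k < n + 1), v k = ((g 0 ⟨k, hk⟩ : ℚ) : ℝ) := by
    intro k hk
    simp only [hv]
    rw [dif_pos hk]
  have hpj : ∀ j (hj : j < n + 1), p v j 1 = ((h 0 ⟨j, hj⟩ : ℚ) : ℝ) := by
    intro j hj
    rw [hhdef, Matrix.mul_apply]
    push_cast
    unfold p
    have e5 : ∀ k : Fin (n + 1), ((g 0 k : ℚ) : ℝ) * ((E (n + 1) k ⟨j, hj⟩ : ℚ) : ℝ) =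
        (fun k : ℕ => if k < j + 1 then v k * ((-1) ^ (j - k) / ((j - k).factorial : ℝ)) else 0) (k : ℕ) := by
      intro k
      by_cases hk : (k : ℕ) < j + 1
      · have hkj : k ≤ (⟨j, hj⟩ : Fin (n + 1)) := by show (k : ℕ) ≤ j; omega
        simp only [hk, if_true]
        rw [hvk k k.2]
        unfold E
        rw [if_pos hkj]
        push_cast
        rfl
      · have hkj : ¬ k ≤ (⟨j, hj⟩ : Fin (n + 1)) := by
          intro hh2
          have : (k : ℕ) ≤ j := hh2
          omega
        simp only [hk, if_false]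
        unfold E
        rw [if_neg hkj]
        simp
    rw [Finset.sum_congr rfl (fun k _ => e5 k)]
    rw [Fin.sum_univ_eq_sum_range (fun k : ℕ => if k < j + 1 then v k * ((-1) ^ (j - k) / ((j - k).factorial : ℝ)) else 0) (n + 1)]
    rw [← Finset.sum_filter]
    apply Finset.sum_congr
    · ext k
      simp only [Finset.mem_filter, Finset.mem_range]
      constructor
      · intro h; exact ⟨by omega, h⟩
      · intro h; exact h.2
    · intro k _; rfl
  refine rolle v n hn ?_ ?_ ?_ ?_
  · rw [hvk 0 (by omega)]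
    have : (⟨0, by omega⟩ : Fin (n + 1)) = 0 := rfl
    rw [this, hgU.2]; simp
  · rw [hvk n (by omega)]
    by_contra hne
    apply hR0
    have hlt : (0 : Fin (n + 1)) < ⟨n, by omega⟩ := by show 0 < n; exact hn
    have := sR 0 ⟨n, by omega⟩ hlt (by exact_mod_cast hne)
    simpa using this
  · rw [hpj n (by omega)]
    by_contra hne
    apply hB0
    have hlt : (0 : Fin (n + 1)) < ⟨n, by omega⟩ := by show 0 < n; exact hn
    have := sB 0 ⟨n, by omega⟩ hlt (by exact_mod_cast hne)
    simpa using this
  · intro j hj0 hjn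
    have hlt : (0 : Fin (n + 1)) < ⟨j, by omega⟩ := by show 0 < j; exact hj0
    rcases hsuf j hj0 hjn with hc | hc
    · left
      rw [hvk j (by omega)]
      by_contra hne
      apply hR0
      have := sR 0 ⟨j, by omega⟩ hlt (by exact_mod_cast hne)
      exact hRc 0 j n hj0 hjn le_rfl (by simpa using this) hc
    · right
      rw [hpj j (by omega)]
      by_contra hne
      apply hB0
      have := sB 0 ⟨j, by omega⟩ hlt (by exact_mod_cast hne)
      exact hBc 0 j n hj0 hjn le_rfl (by simpa using this) hc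

end Pool.Agent.Helper89.NM
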