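import Mathlib
import Pool.Agent.Helper21.NN.Lower
import Pool.Agent.Helper89.NM.End

set_option autoImplicit false

namespace Pool.Agent.Helper89.NM

open Finset

/-- `M` is a non-nested matching with `m` edges inside the block `[a, a + 3m - 1)` of vertices,
all of whose edges have colour `γ`. -/
structure IsM (c : ℕ → ℕ → ℚ) (γ : ℚ) (a m : ℕ) (M : Finset (ℕ × ℕ)) : Prop where
  card : M.card = m
  lo : ∀ e ∈ M, a ≤ e.1
  lt : ∀ e ∈ M, e.1 < e.2
  hi : ∀ e ∈ M, e.2 + 1 < a + 3 * m
  col : ∀ e ∈ M, c e.1 e.2 = γ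
  dj : ∀ e ∈ M, ∀ f ∈ M, e ≠ f → e.1 ≠ f.1 ∧ e.1 ≠ f.2 ∧ e.2 ≠ f.1 ∧ e.2 ≠ f.2
  nn : ∀ e ∈ M, ∀ f ∈ M, ¬ (e.1 < f.1 ∧ f.2 < e.2)

/-- The block has a monochromatic non-nested matching of full size. -/
def HasM (c : ℕ → ℕ → ℚ) (γ : ℚ) (a m : ℕ) : Prop := ∃ M, IsM c γ a m M

lemma HasM.concat {c : ℕ → ℕ → ℚ} {γ : ℚ} {a m k : ℕ}
    (h1 : HasM c γ a m) (h2 : HasM c γ (a + 3 * m) k) : HasM c γ a (m + k) := by
  obtain ⟨M, hM⟩ := h1
  obtain ⟨K, hK⟩ := h2
  have hs : ∀ e ∈ M, ∀ f ∈ K, e.2 + 1 < f.1 := by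
    intro e he f hf
    have := hM.hi e he
    have := hK.lo f hf
    omega
  have hd : Disjoint M K := by
    rw [Finset.disjoint_left]
    intro e he hf
    have := hs e he e hf
    have := hM.lt e he
    omega
  refine ⟨M ∪ K, ?_, ?_, ?_, ?_, ?_, ?_, ?_⟩
  · rw [Finset.card_union_of_disjoint hd, hM.card, hK.card]
  · intro e he
    rcases Finset.mem_union.1 he with he | he
    · exact hM.lo e he
    · have := hK.lo e he; omega
  · intro e he
    rcases Finset.mem_union.1 he with he | he
    · exact hM.lt e he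
    · exact hK.lt e he
  · intro e he
    rcases Finset.mem_union.1 he with he | he
    · have := hM.hi e he; omega
    · have := hK.hi e he; omega
  · intro e he
    rcases Finset.mem_union.1 he with he | he
    · exact hM.col e he
    · exact hK.col e he
  · intro e he f hf hne
    rcases Finset.mem_union.1 he with he | he <;> rcases Finset.mem_union.1 hf with hf | hf
    · exact hM.dj e he f hf hne
    · have := hs e he f hf
      have := hM.lt e he
      have := hK.lt f hf
      refine ⟨?_, ?_, ?_, ?_⟩ <;> omega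
    · have := hs f hf e he
      have := hM.lt f hf
      have := hK.lt e he
      refine ⟨?_, ?_, ?_, ?_⟩ <;> omega
    · exact hK.dj e he f hf hne
  · intro e he f hf hne
    rcases Finset.mem_union.1 he with he | he <;> rcases Finset.mem_union.1 hf with hf | hf
    · exact hM.nn e he f hf hne
    · have := hs e he f hf
      have := hM.lt e he
      have := hK.lt f hf
      omega
    · have := hs f hf e he
      have := hM.lt f hf
      have := hK.lt e he
      omega
    · exact hK.nn e he f hf hne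

/-- The statement delivered by the chain part (helper40): numbers `x m a`, `y m a` for the block of
`3m-1` vertices starting at `a`. -/
def ChainNumbers : Prop :=
  ∀ c : ℕ → ℕ → ℚ, (∀ i j, c i j = 0 ∨ c i j = 1) →
    ∃ x y : ℕ → ℕ → ℚ,
      (∀ a, x 1 a = c a (a + 1) ∧ y 1 a = 1 - c a (a + 1)) ∧
      (∀ m a : ℕ, 1 ≤ m → ((m : ℚ) - 1) * (x m a + y m a) =
        ∑ i ∈ Finset.Ico 1 m, (m.choose i : ℚ) *
          (x i a * y (m - i) (a + 3 * i) - y i a * x (m - i) (a + 3 * i))) ∧
      (∀ m a, 1 ≤ m → x m a ≠ 0 → HasM c 1 a m) ∧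
      (∀ m a, 1 ≤ m → y m a ≠ 0 → HasM c 0 a m)

/-- every block of `3n-1` vertices has a monochromatic non-nested matching of size `n` -/
theorem hasM_of_numbers (c : ℕ → ℕ → ℚ) (_hc : ∀ i j, c i j = 0 ∨ c i j = 1) (x y : ℕ → ℕ → ℚ)
    (h1 : ∀ a, x 1 a = c a (a + 1) ∧ y 1 a = 1 - c a (a + 1))
    (h2 : ∀ m a : ℕ, 1 ≤ m → ((m : ℚ) - 1) * (x m a + y m a) =
        ∑ i ∈ Finset.Ico 1 m, (m.choose i : ℚ) *
          (x i a * y (m - i) (a + 3 * i) - y i a * x (m - i) (a + 3 * i)))
    (hx : ∀ m a, 1 ≤ m → x m a ≠ 0 → HasM c 1 a m)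
    (hy : ∀ m a, 1 ≤ m → y m a ≠ 0 → HasM c 0 a m) :
    ∀ n, 1 ≤ n → ∀ a, HasM c 1 a n ∨ HasM c 0 a n := by
  intro n
  induction n using Nat.strong_induction_on with
  | _ n ih =>
    intro hn a
    by_contra hcon
    push Not at hcon
    refine no_system n hn (fun i j => HasM c 1 (a + 3 * i) (j - i))
      (fun i j => HasM c 0 (a + 3 * i) (j - i)) ?_ ?_ ?_ ?_ ?_
      (fun i j => x (j - i) (a + 3 * i) / ((j - i).factorial : ℚ))
      (fun i j => y (j - i) (a + 3 * i) / ((j - i).factorial : ℚ)) ?_ ?_ ?_ ?_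
    · intro i k j hik hkj _ hA hB
      have e1 : a + 3 * k = (a + 3 * i) + 3 * (k - i) := by omega
      have e2 : j - i = (k - i) + (j - k) := by omega
      rw [e1] at hB
      rw [e2]
      exact hA.concat hB
    · intro i k j hik hkj _ hA hB
      have e1 : a + 3 * k = (a + 3 * i) + 3 * (k - i) := by omega
      have e2 : j - i = (k - i) + (j - k) := by omega
      rw [e1] at hB
      rw [e2]
      exact hA.concat hB
    · intro k hk0 hkn
      exact ih (n - k) (by omega) (by omega) (a + 3 * k)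
    · simpa using hcon.1
    · simpa using hcon.2
    · intro i j hij _ hne
      exact hx _ _ (by omega) (left_ne_zero_of_mul hne)
    · intro i j hij _ hne
      exact hy _ _ (by omega) (left_ne_zero_of_mul hne)
    · intro i _
      have e : i + 1 - i = 1 := by omega
      simp only [e, Nat.factorial_one, Nat.cast_one, div_one]
      rw [(h1 _).1, (h1 _).2]
      ring
    · intro i j hij _
      obtain ⟨d, rfl⟩ : ∃ d, j = i + d := ⟨j - i, by omega⟩
      have e0 : i + d - i = d := by omega
      simp only [e0]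
      have hd : (d.factorial : ℚ) ≠ 0 := by positivity
      have e1 : ((i + d : ℕ) : ℚ) - (i : ℚ) - 1 = (d : ℚ) - 1 := by push_cast; ring
      rw [e1]
      have e2 := h2 d (a + 3 * i) (by omega)
      have e3 : ((d : ℚ) - 1) * (x d (a + 3 * i) / (d.factorial : ℚ) + y d (a + 3 * i) / (d.factorial : ℚ))
          = (∑ k ∈ Finset.Ico 1 d, (d.choose k : ℚ) *
          (x k (a + 3 * i) * y (d - k) (a + 3 * i + 3 * k) - y k (a + 3 * i) * x (d - k) (a + 3 * i + 3 * k)))
            / (d.factorial : ℚ) := by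
        rw [← e2]; ring
      rw [e3, Finset.sum_div]
      symm
      apply Finset.sum_bij' (fun k _ => k - i) (fun k _ => k + i)
      · intro k hk
        rw [Finset.mem_Ioo] at hk
        rw [Finset.mem_Ico]
        omega
      · intro k hk
        rw [Finset.mem_Ico] at hk
        rw [Finset.mem_Ioo]
        omega
      · intro k hk
        rw [Finset.mem_Ioo] at hk
        show k - i + i = k
        omega
      · intro k hk
        show k + i - i = k
        omega
      · intro k hk
        rw [Finset.mem_Ioo] at hk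
        obtain ⟨l, rfl⟩ : ∃ l, k = i + l := ⟨k - i, by omega⟩
        obtain ⟨t, rfl⟩ : ∃ t, d = l + t := ⟨d - l, by omega⟩
        have f1 : i + l - i = l := by omega
        have f2 : i + (l + t) - (i + l) = t := by omega
        have f3 : l + t - l = t := by omega
        have f4 : a + 3 * (i + l) = a + 3 * i + 3 * l := by ring
        simp only [f1, f2, f3, f4]
        have g1 : (((l + t).choose l : ℕ) : ℚ) = ((l + t).factorial : ℚ) / ((l.factorial : ℚ) * (t.factorial : ℚ)) := by
          have := Nat.choose_mul_factorial_mul_factorial (Nat.le_add_right l t)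
          rw [show l + t - l = t by omega] at this
          have hl : (l.factorial : ℚ) ≠ 0 := by positivity
          have ht : (t.factorial : ℚ) ≠ 0 := by positivity
          rw [eq_div_iff (mul_ne_zero hl ht)]
          rw [← mul_assoc]
          exact_mod_cast this
        rw [g1]
        have hl : (l.factorial : ℚ) ≠ 0 := by positivity
        have ht : (t.factorial : ℚ) ≠ 0 := by positivity
        field_simp

/-- the last step: the chain numbers give `f(n) ≤ 3n - 1` for every `n` -/
theorem arrows_of_chainNumbers (H : ChainNumbers) (n : ℕ) (hn : 1 ≤ n) :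
    Pool.Agent.Helper21.NN.Arrows (3 * n - 1) n := by
  intro col
  set c : ℕ → ℕ → ℚ := fun i j =>
    if h : i < 3 * n - 1 ∧ j < 3 * n - 1 then (if col ⟨i, h.1⟩ ⟨j, h.2⟩ then 1 else 0) else 0 with hcdef
  have hc : ∀ i j, c i j = 0 ∨ c i j = 1 := by
    intro i j
    simp only [hcdef]
    split_ifs <;> simp
  obtain ⟨x, y, h1, h2, hx, hy⟩ := H c hc
  have key : ∀ (b : Bool), HasM c (if b then 1 else 0) 0 n →
      ∃ (b : Bool) (S : Finset (Fin (3 * n - 1) × Fin (3 * n - 1))),
        Pool.Agent.Helper21.NN.IsNonNestedMatching S ∧ S.card = n ∧ ∀ e ∈ S, col e.1 e.2 = b := by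
    rintro b ⟨M, hM⟩
    have hb1 : ∀ e ∈ M, e.1 < 3 * n - 1 := by
      intro e he
      have := hM.hi e he
      have := hM.lt e he
      omega
    have hb2 : ∀ e ∈ M, e.2 < 3 * n - 1 := by
      intro e he
      have := hM.hi e he
      omega
    set φ : {e // e ∈ M} → Fin (3 * n - 1) × Fin (3 * n - 1) :=
      fun e => (⟨e.1.1, hb1 e.1 e.2⟩, ⟨e.1.2, hb2 e.1 e.2⟩) with hφ
    have hinj : Function.Injective φ := by
      intro e f hef
      simp only [hφ, Prod.mk.injEq, Fin.mk.injEq] at hef
      exact Subtype.ext (Prod.ext hef.1 hef.2)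
    refine ⟨b, M.attach.map ⟨φ, hinj⟩, ⟨?_, ?_, ?_⟩, ?_, ?_⟩
    · intro e he
      simp only [Finset.mem_map, Finset.mem_attach, Function.Embedding.coeFn_mk, true_and] at he
      obtain ⟨e', rfl⟩ := he
      exact hM.lt e'.1 e'.2
    · intro e he f hf hne
      simp only [Finset.mem_map, Finset.mem_attach, Function.Embedding.coeFn_mk, true_and] at he hf
      obtain ⟨e', rfl⟩ := he
      obtain ⟨f', rfl⟩ := hf
      have hne' : e'.1 ≠ f'.1 := fun h => hne (by rw [Subtype.ext h])
      have := hM.dj e'.1 e'.2 f'.1 f'.2 hne'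
      simpa only [hφ, ne_eq, Fin.mk.injEq] using this
    · intro e he f hf
      simp only [Finset.mem_map, Finset.mem_attach, Function.Embedding.coeFn_mk, true_and] at he hf
      obtain ⟨e', rfl⟩ := he
      obtain ⟨f', rfl⟩ := hf
      exact hM.nn e'.1 e'.2 f'.1 f'.2
    · rw [Finset.card_map, Finset.card_attach, hM.card]
    · intro e he
      simp only [Finset.mem_map, Finset.mem_attach, Function.Embedding.coeFn_mk, true_and] at he
      obtain ⟨e', rfl⟩ := he
      have h3 := hM.col e'.1 e'.2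
      simp only [hcdef] at h3
      rw [dif_pos ⟨hb1 e'.1 e'.2, hb2 e'.1 e'.2⟩] at h3
      simp only [hφ]
      cases b <;> cases hcc : col ⟨e'.1.1, hb1 e'.1 e'.2⟩ ⟨e'.1.2, hb2 e'.1 e'.2⟩ <;>
        simp_all
  rcases hasM_of_numbers c hc x y h1 h2 hx hy n hn 0 with h | h
  · exact key true (by simpa using h)
  · exact key false (by simpa using h)

end Pool.Agent.Helper89.NM
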