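import Pool.Agent.Helper74.NM.St

/-!
# Module TRF of project NM: finitely many letters
-/

set_option autoImplicit false

namespace Pool.Agent.Helper89.NM

open Pool.Agent.Helper74 Pool.Agent.Helper74.NM

theorem trf_inj (G : Type) (F : Set G) (hF : F.Finite) :
    ∃ (n : ℕ) (d : G → Fin n), Set.InjOn d F := by
  classical
  let e := hF.toFinset.equivFin
  refine ⟨hF.toFinset.card + 1, fun x => if h : x ∈ hF.toFinset then (e ⟨x, h⟩).castSucc
    else Fin.last _, ?_⟩
  intro x hx y hy hxy
  have hx' : x ∈ hF.toFinset := hF.mem_toFinset.2 hx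
  have hy' : y ∈ hF.toFinset := hF.mem_toFinset.2 hy
  simp only [hx', hy', dif_pos] at hxy
  have h1 := e.injective (Fin.castSucc_injective _ hxy)
  exact congrArg Subtype.val h1

theorem hTRF : StTRF := by
  intro G R F hF
  obtain ⟨n, d, hd⟩ := trf_inj G F hF
  refine ⟨n, fun i j => ∃ x ∈ F, ∃ y ∈ F, d x = i ∧ d y = j ∧ R x y, d, ?_, ?_⟩
  · rintro hs i j ⟨x, hx, y, hy, h1, h2, h3⟩
    exact ⟨y, hy, x, hx, h2, h1, hs _ _ h3⟩
  · intro w hw
    constructor
    · intro h
      induction h with
      | nil => exact NC.nil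
      | wrap x y u v hR _ _ ihu ihv =>
        simp only [List.map_cons, List.map_append]
        refine NC.wrap _ _ _ _ ⟨x, hw _ (by simp), y, hw _ (by simp), rfl, rfl, hR⟩
          (ihu fun a ha => hw a (by simp [ha])) (ihv fun a ha => hw a (by simp [ha]))
    · intro h
      generalize hw' : w.map d = w' at h
      induction h generalizing w with
      | nil =>
        rw [List.map_eq_nil_iff] at hw'
        rw [hw']; exact NC.nil
      | wrap i j u' v' hR _ _ ihu ihv =>
        obtain ⟨x, w1, rfl, hx, h1⟩ := List.map_eq_cons_iff.1 hw'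
        obtain ⟨u, w2, rfl, hu, h2⟩ := List.map_eq_append_iff.1 h1
        obtain ⟨y, v, rfl, hy, hv⟩ := List.map_eq_cons_iff.1 h2
        obtain ⟨x', hx', y', hy', e1, e2, hR'⟩ := hR
        have hxF : x ∈ F := hw x (by simp)
        have hyF : y ∈ F := hw y (by simp)
        have ex : x' = x := hd hx' hxF (by rw [e1, hx])
        have ey : y' = y := hd hy' hyF (by rw [e2, hy])
        rw [ex, ey] at hR'
        exact NC.wrap _ _ _ _ hR' (ihu u (fun a ha => hw a (by simp [ha])) hu)
          (ihv v (fun a ha => hw a (by simp [ha])) hv)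

end Pool.Agent.Helper89.NM
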